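import Mathlib
import Pool.Agent.Helper28.CpHSS.Basic
import Pool.Agent.Helper28.CpHSS.Double

set_option autoImplicit false

open Set Filter Topology Pool.Agent.Helper28.CpHSS

namespace Pool.Agent.Results.MP_d23b2b_gt.DoubleFunctionSpace

universe u

/-- For every Tychonoff space `Z` the following are equivalent: the countable power of `Z` is
hereditarily sequentially separable; `C_p(C_p(Z))` is hereditarily sequentially separable;
`C_p(W)` is hereditarily sequentially separable for every subspace `W` of `C_p(Z)`. -/
theorem result (Z : Type u) [TopologicalSpace Z] [T35Space Z] :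
    List.TFAE [HSS (ℕ → Z), HSS (Cp (Cp Z)), ∀ W : Set (Cp Z), HSS (Cp W)] := by
  tfae_have 1 → 3 := fun h W => hss_cp_subspace h W
  tfae_have 3 → 2 := fun h => by
    refine hss_of_code (h univ) (fun φ => ⟨fun w => φ.1 w.1, φ.2.comp continuous_subtype_val⟩)
      (fun φ s hs => ?_)
    rw [tendsto_subtype_rng, tendsto_pi_nhds] at hs ⊢
    exact fun f => hs ⟨f, mem_univ f⟩
  tfae_have 2 → 1 := fun h => hss_pi_of_double h
  tfae_finish

end Pool.Agent.Results.MP_d23b2b_gt.DoubleFunctionSpace
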