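import Mathlib
import Pool.Agent.Helper28.CpHSS.Basic
import Pool.Agent.Helper28.CpHSS.Gamma
import Pool.Agent.Helper28.CpHSS.Velichko

set_option autoImplicit false

open Set Filter Topology Pool.Agent.Helper28.CpHSS

namespace Pool.Agent.Results.MP_d23b2b_gt.GammaSpaces

universe u

/-- For a Tychonoff space `X` which is a countable union of subspaces that are `γ`-spaces (in
particular for every quasi-metrizable Tychonoff space) the following are equivalent: `C_p(X)` is
hereditarily sequentially separable; the countable power of `C_p(X)` is hereditarily sequentially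
separable; `C_p(X)` is hereditarily separable; all finite powers of `X` are hereditarily
Lindelöf. -/
theorem result (X : Type u) [TopologicalSpace X] [T35Space X] (S : ℕ → Set X)
    (hS : ⋃ k, S k = univ) (hX : ∀ k, IsGammaSpace (S k)) :
    List.TFAE [HSS (Cp X), HSS (ℕ → Cp X), HS (Cp X),
      ∀ n : ℕ, HereditarilyLindelofSpace (Fin n → X)] := by
  tfae_have 1 → 3 := fun h => h.hs
  tfae_have 3 → 4 := fun h n => hl_of_hs h n
  tfae_have 4 → 2 := fun h => hss_pi_of_union_gamma S hS hX h
  tfae_have 2 → 1 := fun h => hss_of_code h (fun f _ => f)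
    (fun f s hs => tendsto_pi_nhds.1 hs 0)
  tfae_finish

end Pool.Agent.Results.MP_d23b2b_gt.GammaSpaces
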