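import Mathlib
import Pool.Agent.Helper28.CpHSS.Basic
import Pool.Agent.Helper28.CpHSS.Lots
import Pool.Agent.Helper28.CpHSS.Sorg

set_option autoImplicit false

open Set Filter Topology Pool.Agent.Helper28.CpHSS

namespace Pool.Agent.Results.MP_d23b2b_gt.OrderedProducts

/-- The question has a positive answer for all (Tychonoff) spaces `X` that embed in a countable
product of linearly ordered topological spaces if and only if there is no uncountable increasing
set of real numbers. -/
theorem result :
    (∀ (X : Type) [TopologicalSpace X] [T35Space X] (L : ℕ → Type) [∀ i, LinearOrder (L i)]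
      [∀ i, TopologicalSpace (L i)] [∀ i, OrderTopology (L i)] (e : X → ∀ i, L i),
      IsEmbedding e → HSS (Cp X) → Cosmic (Cp X)) ↔
    ¬ ∃ E : Set ℝ, ¬ E.Countable ∧ IsIncreasing E := by
  constructor
  · rintro h ⟨E, hEc, hE⟩
    have hs : HSS (Cp (SX E)) := by
      have h1 := hss_pi_of_gamma SX.isGamma (SX.hl hE)
      exact hss_of_code h1 (fun f _ => f) (fun f s hs => tendsto_pi_nhds.1 hs 0)
    have hemb : IsEmbedding (fun (x : SX E) (_ : ℕ) => (x.1 : DA)) := by
      refine IsEmbedding.of_comp (continuous_pi fun _ => continuous_subtype_val)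
        (continuous_apply 0) ?_
      exact IsEmbedding.subtypeVal
    have hc := h (SX E) (fun _ => DA) _ hemb hs
    exact hEc (SX.countable_of_cosmic (Cosmic.of_double hc.cp))
  · intro h X _ _ L _ _ _ e he hs
    have hHL : ∀ n : ℕ, HereditarilyLindelofSpace (Fin n → X) := fun n => hl_of_hs hs.hs n
    have hG : ∀ i, Cosmic (range fun x => e x i) := by
      intro i
      refine cosmic_of_hl h _ (hl_image hHL (fun x => (⟨e x i, mem_range_self x⟩ :
        range fun x => e x i)) ?_ ?_)
      · exact ((continuous_apply i).comp he.continuous).subtype_mk _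
      · rintro ⟨_, x, rfl⟩
        exact ⟨x, rfl⟩
    have hX : Cosmic X := by
      refine (Cosmic.pi hG).of_isInducing
        (f := fun x i => (⟨e x i, mem_range_self x⟩ : range fun x => e x i)) ?_
      refine IsInducing.of_comp (g := fun (v : ∀ i, range fun x => e x i) i => (v i).1) ?_ ?_
        (show IsInducing e from he.isInducing)
      · exact continuous_pi fun i => ((continuous_apply i).comp he.continuous).subtype_mk _
      · exact continuous_pi fun i => continuous_subtype_val.comp (continuous_apply i)
    exact hX.cp

end Pool.Agent.Results.MP_d23b2b_gt.OrderedProducts
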