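import Mathlib
import Pool.Agent.Helper28.CpHSS.Basic
import Pool.Agent.Helper28.CpHSS.ZeroDim

set_option autoImplicit false

open Set Filter Topology Pool.Agent.Helper28.CpHSS

namespace Pool.Agent.Results.MP_d23b2b_gt.ZeroDimReduction

/-- The following are equivalent:
(1) the question has a positive answer for all zero-dimensional Tychonoff spaces `X`;
(2) every zero-dimensional Tychonoff space `Z` whose countable power is hereditarily sequentially
separable has a countable network;
(3) the question has a positive answer for all the (locally convex) spaces `X = C_p(Z)`, where `Z`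
is a zero-dimensional Tychonoff space. -/
theorem result :
    List.TFAE [
      ∀ (X : Type) [TopologicalSpace X] [T35Space X], ZeroDim X →
        HSS (Cp X) → Cosmic (Cp X),
      ∀ (Z : Type) [TopologicalSpace Z] [T35Space Z], ZeroDim Z →
        HSS (ℕ → Z) → Cosmic Z,
      ∀ (Z : Type) [TopologicalSpace Z] [T35Space Z], ZeroDim Z →
        HSS (Cp (Cp Z)) → Cosmic (Cp (Cp Z))] := by
  tfae_have 1 → 2 := by
    intro h Z _ _ hZ hs
    exact Cosmic.of_two hZ (h (Two Z) zeroDim_two (hss_cp_subspace hs (Two Z)))
  tfae_have 2 → 1 := by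
    intro h X _ _ hX hs
    have h1 : HSS (ℕ → Cp X) := hss_pi_cp_of_zeroDim hX hs
    have h2 : HSS (ℕ → Two X) := by
      refine hss_of_code h1 (fun z n => (z n).1) (fun z s hz => ?_)
      rw [tendsto_pi_nhds] at hz ⊢
      intro n
      rw [tendsto_subtype_rng]
      exact hz n
    exact (Cosmic.of_two hX (h (Two X) zeroDim_two h2).cp).cp
  tfae_have 2 → 3 := by
    intro h Z _ _ hZ hs
    exact (h Z hZ (hss_pi_of_double hs)).cp.cp
  tfae_have 3 → 2 := by
    intro h Z _ _ hZ hs
    refine Cosmic.of_double (h Z hZ ?_)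
    refine hss_of_code (hss_cp_subspace hs univ)
      (fun φ => ⟨fun w => φ.1 w.1, φ.2.comp continuous_subtype_val⟩) (fun φ s hφ => ?_)
    rw [tendsto_subtype_rng, tendsto_pi_nhds] at hφ ⊢
    exact fun f => hφ ⟨f, mem_univ f⟩
  tfae_finish

end Pool.Agent.Results.MP_d23b2b_gt.ZeroDimReduction
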